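import Pool.Agent.H86.RB.Run

/-!
# A checker for explicit isotopies of tangle diagrams

`Ins`: instructions (a position in the word and a move); `app L v`: the result of a list of instructions;
`app_sound`: if `app L v = some w` then the two diagrams are isotopic.
-/

set_option autoImplicit false

namespace Pool.Agent.H69.RM

open Pool.Agent.H86.RB

/-- equality of kinds -/
def kb : Kd → Kd → Bool
  | .cup, .cup => true
  | .cap, .cap => true
  | .pos, .pos => true
  | .neg, .neg => true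
  | _, _ => false

theorem kb_sound {k l : Kd} (h : kb k l = true) : k = l := by
  cases k <;> cases l <;> first | rfl | exact absurd h (by decide)

/-- equality of words -/
def wb : Wd → Wd → Bool
  | [], [] => true
  | s :: v, t :: w => kb s.k t.k && (Nat.beq s.i t.i && wb v w)
  | _, _ => false

theorem wb_sound : ∀ {v w : Wd}, wb v w = true → v = w
  | [], [], _ => rfl
  | [], _ :: _, h => absurd h (by simp [wb])
  | _ :: _, [], h => absurd h (by simp [wb])
  | s :: v, t :: w, h => by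
    rw [wb, Bool.and_eq_true, Bool.and_eq_true] at h
    obtain ⟨h1, h2, h3⟩ := h
    have e1 := kb_sound h1
    have e2 := Nat.eq_of_beq_eq_true h2
    have e3 := wb_sound h3
    cases s
    cases t
    simp only at e1 e2
    rw [e1, e2, e3]

/-- a crossing -/
def isX : Kd → Bool
  | .pos => true
  | .neg => true
  | _ => false

/-- the local moves at the beginning of a word; `0`: exchange of heights (forward), `1`: exchange of
heights (backward), `2`: removal of a pair (zigzag or Reidemeister 2), `3`: removal of a curl, `4`: Reidemeister 3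
(all signs), `5`: sliding over a cup or cap -/
def hd : ℕ → Wd → Option Wd
  | 0, ⟨k, i⟩ :: ⟨l, j⟩ :: r =>
    if Nat.ble (i + k.nout) j then some (⟨l, j - k.nout + k.nin⟩ :: ⟨k, i⟩ :: r) else none
  | 1, ⟨l, j⟩ :: ⟨k, i⟩ :: r =>
    if Nat.ble (i + k.nin) j then some (⟨k, i⟩ :: ⟨l, j - k.nin + k.nout⟩ :: r) else none
  | 2, ⟨.cup, i⟩ :: ⟨.cap, j⟩ :: r =>
    if Nat.beq j (i + 1) || Nat.beq i (j + 1) then some r else none
  | 2, ⟨.pos, i⟩ :: ⟨.neg, j⟩ :: r => if Nat.beq i j then some r else none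
  | 2, ⟨.neg, i⟩ :: ⟨.pos, j⟩ :: r => if Nat.beq i j then some r else none
  | 3, ⟨.pos, i⟩ :: ⟨.cap, j⟩ :: r => if Nat.beq i j then some (⟨.cap, j⟩ :: r) else none
  | 3, ⟨.neg, i⟩ :: ⟨.cap, j⟩ :: r => if Nat.beq i j then some (⟨.cap, j⟩ :: r) else none
  | 3, ⟨.cup, i⟩ :: ⟨.pos, j⟩ :: r => if Nat.beq i j then some (⟨.cup, j⟩ :: r) else none
  | 3, ⟨.cup, i⟩ :: ⟨.neg, j⟩ :: r => if Nat.beq i j then some (⟨.cup, j⟩ :: r) else none
  | 4, ⟨k1, i⟩ :: ⟨k2, j⟩ :: ⟨k3, l⟩ :: r =>
    if isX k1 && (isX k2 && (isX k3 && (Nat.beq i l && ((Nat.beq j (i + 1) || Nat.beq i (j + 1)) &&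
      (kb k1 k2 || kb k2 k3))))) then some (⟨k3, j⟩ :: ⟨k2, i⟩ :: ⟨k1, j⟩ :: r) else none
  | 5, ⟨.pos, i⟩ :: ⟨.cap, j⟩ :: r =>
    if Nat.beq i (j + 1) then some (⟨.neg, j⟩ :: ⟨.cap, i⟩ :: r)
    else if Nat.beq j (i + 1) then some (⟨.neg, j⟩ :: ⟨.cap, i⟩ :: r) else none
  | 5, ⟨.neg, i⟩ :: ⟨.cap, j⟩ :: r =>
    if Nat.beq i (j + 1) then some (⟨.pos, j⟩ :: ⟨.cap, i⟩ :: r)
    else if Nat.beq j (i + 1) then some (⟨.pos, j⟩ :: ⟨.cap, i⟩ :: r) else none
  | 5, ⟨.cup, i⟩ :: ⟨.pos, j⟩ :: r =>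
    if Nat.beq j (i + 1) || Nat.beq i (j + 1) then some (⟨.cup, j⟩ :: ⟨.neg, i⟩ :: r) else none
  | 5, ⟨.cup, i⟩ :: ⟨.neg, j⟩ :: r =>
    if Nat.beq j (i + 1) || Nat.beq i (j + 1) then some (⟨.cup, j⟩ :: ⟨.pos, i⟩ :: r) else none
  | _, _ => none

/-- insertions at the beginning of a word -/
def nw (t i : ℕ) (w : Wd) : Option Wd :=
  match t, w with
  | 0, r => some (⟨.cup, i⟩ :: ⟨.cap, i + 1⟩ :: r)
  | 1, r => some (⟨.cup, i + 1⟩ :: ⟨.cap, i⟩ :: r)
  | 2, r => some (⟨.pos, i⟩ :: ⟨.neg, i⟩ :: r)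
  | 3, r => some (⟨.neg, i⟩ :: ⟨.pos, i⟩ :: r)
  | 4, ⟨.cap, j⟩ :: r => some (⟨.pos, j⟩ :: ⟨.cap, j⟩ :: r)
  | 4, ⟨.cup, j⟩ :: r => some (⟨.cup, j⟩ :: ⟨.pos, j⟩ :: r)
  | 5, ⟨.cap, j⟩ :: r => some (⟨.neg, j⟩ :: ⟨.cap, j⟩ :: r)
  | 5, ⟨.cup, j⟩ :: r => some (⟨.cup, j⟩ :: ⟨.neg, j⟩ :: r)
  | _, _ => none

/-- a function applied to the rest of the word after `p` slices -/
def pt (f : Wd → Option Wd) : ℕ → Wd → Option Wd
  | 0, w => f w
  | _ + 1, [] => none
  | p + 1, s :: w =>
    match pt f p w with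
    | some w' => some (s :: w')
    | none => none

/-- instructions: `mv p t`: the move `t` of `hd` at position `p`; `nv p t i`: the insertion `t` of `nw` -/
inductive Ins
  | mv (p t : ℕ)
  | nv (p t i : ℕ)

/-- the top type is `1` -/
def tyb : Wd → ℕ → Bool
  | [], n => Nat.beq n 1
  | s :: w, n => Nat.ble (s.i + s.k.nin) n && tyb w (n - s.k.nin + s.k.nout)

/-- one instruction -/
def one : Ins → Wd → Option Wd
  | .mv p t, w =>
    match pt (hd t) p w with
    | some w' => if tyb w' 1 then some w' else none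
    | none => none
  | .nv p t i, w =>
    match pt (nw t i) p w with
    | some w' => if tyb w' 1 then some w' else none
    | none => none

/-- the check: the instructions lead from `v` to `w` -/
def chk : List Ins → Wd → Wd → Bool
  | [], v, w => wb v w
  | s :: L, v, w =>
    match one s v with
    | some v' => chk L v' w
    | none => false

/-! ## Soundness -/

/-- isotopic inside every `(1,1)`-tangle diagram -/
def Ev (x y : Wd) : Prop := ∀ a b : Wd, ty (a ++ x ++ b) 1 = some 1 → ty (a ++ y ++ b) 1 = some 1 →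
  Iso (a ++ x ++ b) (a ++ y ++ b)

theorem iso_symm {v w : Wd} (h : Iso v w) : Iso w v := by
  induction h with
  | refl => exact Relation.ReflTransGen.refl
  | tail h1 h2 ih => exact Relation.ReflTransGen.head ⟨h2.2.1, h2.1, h2.2.2.symm⟩ ih

theorem ev_symm {x y : Wd} (h : Ev x y) : Ev y x := fun a b h1 h2 => iso_symm (h a b h2 h1)

theorem ev_mv {x y : Wd} (h : Mv x y) : Ev x y := fun a b h1 h2 =>
  Relation.ReflTransGen.single ⟨h1, h2, Or.inl ⟨a, b, x, y, h, rfl, rfl⟩⟩

theorem ev_rfl (x : Wd) : Ev x x := fun _ _ _ _ => Relation.ReflTransGen.refl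

/-- isotopic on `n` strands -/
def En (n : ℕ) (x y : Wd) : Prop := ty x n = some n ∧ ty y n = some n ∧ ∀ a b : Wd,
  ty a 1 = some n → ty b n = some 1 → Iso (a ++ x ++ b) (a ++ y ++ b)

theorem ty3 {n : ℕ} {a x b : Wd} (ha : ty a 1 = some n) (hx : ty x n = some n)
    (hb : ty b n = some 1) : ty (a ++ x ++ b) 1 = some 1 := by
  rw [ty_append, ty_append, ha, Option.bind_some, hx, Option.bind_some, hb]

theorem en_symm {n : ℕ} {x y : Wd} (h : En n x y) : En n y x :=
  ⟨h.2.1, h.1, fun a b ha hb => iso_symm (h.2.2 a b ha hb)⟩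

theorem en_trans {n : ℕ} {x y z : Wd} (h : En n x y) (h' : En n y z) : En n x z :=
  ⟨h.1, h'.2.1, fun a b ha hb => (h.2.2 a b ha hb).trans (h'.2.2 a b ha hb)⟩

theorem en_mv {n : ℕ} {x y : Wd} (h : Mv x y) (hx : ty x n = some n) (hy : ty y n = some n) :
    En n x y := ⟨hx, hy, fun a b ha hb => ev_mv h a b (ty3 ha hx hb) (ty3 ha hy hb)⟩

theorem en_ctx {n : ℕ} {x y : Wd} (h : En n x y) {c d : Wd} (hc : ty c n = some n)
    (hd : ty d n = some n) : En n (c ++ x ++ d) (c ++ y ++ d) := by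
  have t : ∀ z : Wd, ty z n = some n → ty (c ++ z ++ d) n = some n := by
    intro z hz
    rw [ty_append, ty_append, hc, Option.bind_some, hz, Option.bind_some, hd]
  refine ⟨t x h.1, t y h.2.1, fun a b ha hb => ?_⟩
  have := h.2.2 (a ++ c) (d ++ b) (by rw [ty_append, ha, Option.bind_some, hc])
    (by rw [ty_append, hd, Option.bind_some, hb])
  simpa [List.append_assoc] using this

/-- a word of crossings -/
theorem ty_xs {n : ℕ} : ∀ {z : Wd}, (∀ s ∈ z, isX s.k = true ∧ s.i + 2 ≤ n) → ty z n = some n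
  | [], _ => rfl
  | s :: z, h => by
    have h1 := h s (by simp)
    have hi : s.k.nin = 2 ∧ s.k.nout = 2 := by
      obtain ⟨k, i⟩ := s
      cases k
      · exact absurd h1.1 (by simp [isX])
      · exact absurd h1.1 (by simp [isX])
      · exact ⟨rfl, rfl⟩
      · exact ⟨rfl, rfl⟩
    rw [ty_cons, hi.1, hi.2, if_pos h1.2, Nat.sub_add_cancel (by omega)]
    exact ty_xs fun t ht => h t (by simp [ht])

/-- abbreviations for crossings -/
abbrev P (i : ℕ) : Sl := ⟨.pos, i⟩

abbrev M (i : ℕ) : Sl := ⟨.neg, i⟩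

section R3

variable {n u v : ℕ}

theorem xok {z : Wd} (hu : u + 2 ≤ n) (hv : v + 2 ≤ n)
    (h : ∀ s ∈ z, s = P u ∨ s = P v ∨ s = M u ∨ s = M v) : ty z n = some n := by
  refine ty_xs fun s hs => ?_
  rcases h s hs with h | h | h | h <;> subst h <;> exact ⟨rfl, by simp only; omega⟩

theorem en_pm (i : ℕ) (h : i + 2 ≤ n) : En n [P i, M i] [] :=
  en_mv (Mv.r2a i) (xok (u := i) (v := i) h h (by simp)) rfl

theorem en_mp (i : ℕ) (h : i + 2 ≤ n) : En n [M i, P i] [] :=
  en_mv (Mv.r2b i) (xok (u := i) (v := i) h h (by simp)) rfl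

theorem en_ppp (hu : u + 2 ≤ n) (hv : v + 2 ≤ n) (h : v = u + 1 ∨ u = v + 1) :
    En n [P u, P v, P u] [P v, P u, P v] := by
  rcases h with h | h
  · subst h
    exact en_mv (Mv.r3 u) (xok hu hv (by simp)) (xok hu hv (by simp))
  · subst h
    exact en_symm (en_mv (Mv.r3 v) (xok hu hv (by simp)) (xok hu hv (by simp)))

/-- insertion of an inverse pair and other context moves -/
theorem en_c {x y : Wd} (h : En n x y) (c d : Wd) {X Y : Wd} (hX : X = c ++ x ++ d)
    (hY : Y = c ++ y ++ d) (hc : ty c n = some n) (hd : ty d n = some n) : En n X Y := by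
  subst hX hY
  exact en_ctx h hc hd

theorem en_ppm (hu : u + 2 ≤ n) (hv : v + 2 ≤ n) (h : v = u + 1 ∨ u = v + 1) :
    En n [P u, P v, M u] [M v, P u, P v] := by
  -- P u P v M u <- M v P v P u P v M u -> M v P u P v P u M u -> M v P u P v
  have a1 : En n [M v, P v, P u, P v, M u] [P u, P v, M u] :=
    en_c (en_mp v hv) [] [P u, P v, M u] rfl rfl rfl (xok hu hv (by simp))
  have a2 : En n [M v, P v, P u, P v, M u] [M v, P u, P v, P u, M u] :=
    en_c (en_symm (en_ppp hu hv h)) [M v] [M u] rfl rfl (xok hu hv (by simp))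
      (xok hu hv (by simp))
  have a3 : En n [M v, P u, P v, P u, M u] [M v, P u, P v] :=
    en_c (en_pm u hu) [M v, P u, P v] [] rfl rfl (xok hu hv (by simp)) rfl
  exact en_trans (en_symm a1) (en_trans a2 a3)

theorem en_mpp (hu : u + 2 ≤ n) (hv : v + 2 ≤ n) (h : v = u + 1 ∨ u = v + 1) :
    En n [M u, P v, P u] [P v, P u, M v] := by
  have a1 : En n [M u, P v, P u, P v, M v] [M u, P v, P u] :=
    en_c (en_pm v hv) [M u, P v, P u] [] rfl rfl (xok hu hv (by simp)) rfl
  have a2 : En n [M u, P v, P u, P v, M v] [M u, P u, P v, P u, M v] :=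
    en_c (en_symm (en_ppp hu hv h)) [M u] [M v] rfl rfl (xok hu hv (by simp))
      (xok hu hv (by simp))
  have a3 : En n [M u, P u, P v, P u, M v] [P v, P u, M v] :=
    en_c (en_mp u hu) [] [P v, P u, M v] rfl rfl rfl (xok hu hv (by simp))
  exact en_trans (en_symm a1) (en_trans a2 a3)

theorem en_mmm (hu : u + 2 ≤ n) (hv : v + 2 ≤ n) (h : v = u + 1 ∨ u = v + 1) :
    En n [M u, M v, M u] [M v, M u, M v] := by
  have a1 : En n [M u, M v, M u, P v, M v] [M u, M v, M u] :=
    en_c (en_pm v hv) [M u, M v, M u] [] rfl rfl (xok hu hv (by simp)) rfl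
  have a2 : En n [M u, M v, M u, P v, P u, M u, M v] [M u, M v, M u, P v, M v] :=
    en_c (en_pm u hu) [M u, M v, M u, P v] [M v] rfl rfl (xok hu hv (by simp))
      (xok hu hv (by simp))
  have a3 : En n [M u, M v, M u, P v, P u, P v, M v, M u, M v]
      [M u, M v, M u, P v, P u, M u, M v] :=
    en_c (en_pm v hv) [M u, M v, M u, P v, P u] [M u, M v] rfl rfl (xok hu hv (by simp))
      (xok hu hv (by simp))
  have a4 : En n [M u, M v, M u, P v, P u, P v, M v, M u, M v]
      [M u, M v, M u, P u, P v, P u, M v, M u, M v] :=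
    en_c (en_symm (en_ppp hu hv h)) [M u, M v, M u] [M v, M u, M v] rfl rfl
      (xok hu hv (by simp)) (xok hu hv (by simp))
  have a5 : En n [M u, M v, M u, P u, P v, P u, M v, M u, M v]
      [M u, M v, P v, P u, M v, M u, M v] :=
    en_c (en_mp u hu) [M u, M v] [P v, P u, M v, M u, M v] rfl rfl (xok hu hv (by simp))
      (xok hu hv (by simp))
  have a6 : En n [M u, M v, P v, P u, M v, M u, M v] [M u, P u, M v, M u, M v] :=
    en_c (en_mp v hv) [M u] [P u, M v, M u, M v] rfl rfl (xok hu hv (by simp))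
      (xok hu hv (by simp))
  have a7 : En n [M u, P u, M v, M u, M v] [M v, M u, M v] :=
    en_c (en_mp u hu) [] [M v, M u, M v] rfl rfl rfl (xok hu hv (by simp))
  exact en_trans (en_symm a1) (en_trans (en_symm a2) (en_trans (en_symm a3) (en_trans a4
    (en_trans a5 (en_trans a6 a7)))))

theorem en_pmm (hu : u + 2 ≤ n) (hv : v + 2 ≤ n) (h : v = u + 1 ∨ u = v + 1) :
    En n [P u, M v, M u] [M v, M u, P v] := by
  have a1 : En n [P u, M v, M u, M v, P v] [P u, M v, M u] :=
    en_c (en_mp v hv) [P u, M v, M u] [] rfl rfl (xok hu hv (by simp)) rfl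
  have a2 : En n [P u, M v, M u, M v, P v] [P u, M u, M v, M u, P v] :=
    en_c (en_symm (en_mmm hu hv h)) [P u] [P v] rfl rfl (xok hu hv (by simp))
      (xok hu hv (by simp))
  have a3 : En n [P u, M u, M v, M u, P v] [M v, M u, P v] :=
    en_c (en_pm u hu) [] [M v, M u, P v] rfl rfl rfl (xok hu hv (by simp))
  exact en_trans (en_symm a1) (en_trans a2 a3)

theorem en_mmp (hu : u + 2 ≤ n) (hv : v + 2 ≤ n) (h : v = u + 1 ∨ u = v + 1) :
    En n [M u, M v, P u] [P v, M u, M v] := by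
  have a1 : En n [P v, M v, M u, M v, P u] [M u, M v, P u] :=
    en_c (en_pm v hv) [] [M u, M v, P u] rfl rfl rfl (xok hu hv (by simp))
  have a2 : En n [P v, M v, M u, M v, P u] [P v, M u, M v, M u, P u] :=
    en_c (en_symm (en_mmm hu hv h)) [P v] [P u] rfl rfl (xok hu hv (by simp))
      (xok hu hv (by simp))
  have a3 : En n [P v, M u, M v, M u, P u] [P v, M u, M v] :=
    en_c (en_mp u hu) [P v, M u, M v] [] rfl rfl (xok hu hv (by simp)) rfl
  exact en_trans (en_symm a1) (en_trans a2 a3)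

theorem en_r3 (p q r : Bool) (hu : u + 2 ≤ n) (hv : v + 2 ≤ n) (h : v = u + 1 ∨ u = v + 1)
    (hb : p = q ∨ q = r) : En n [X p u, X q v, X r u] [X r v, X q u, X p v] := by
  have h' : u = v + 1 ∨ v = u + 1 := h.symm
  cases p <;> cases q <;> cases r
  · exact en_mmm hu hv h
  · exact en_mmp hu hv h
  · simp at hb
  · exact en_mpp hu hv h
  · exact en_pmm hu hv h
  · simp at hb
  · exact en_ppm hu hv h
  · exact en_ppp hu hv h

end R3

theorem isX_iff {k : Kd} (h : isX k = true) : ∃ p : Bool, ∀ i, (⟨k, i⟩ : Sl) = X p i := by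
  cases k
  · exact absurd h (by simp [isX])
  · exact absurd h (by simp [isX])
  · exact ⟨true, fun _ => rfl⟩
  · exact ⟨false, fun _ => rfl⟩

theorem ev_r3 (p q r : Bool) (u v : ℕ) (h : v = u + 1 ∨ u = v + 1) (hb : p = q ∨ q = r) :
    Ev [X p u, X q v, X r u] [X r v, X q u, X p v] := by
  intro a b h1 h2
  rw [List.append_assoc, ty_append] at h1 h2
  obtain ⟨n, hn, h1⟩ := Option.bind_eq_some_iff.1 h1
  rw [hn, Option.bind_some] at h2
  have e : ∀ (p : Bool) (i : ℕ) (w : Wd), ty (X p i :: w) n =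
      if i + 2 ≤ n then ty w n else none := by
    intro p i w
    rw [ty_cons]
    have hk : (X p i).k.nin = 2 ∧ (X p i).k.nout = 2 ∧ (X p i).i = i := by
      cases p <;> exact ⟨rfl, rfl, rfl⟩
    rw [hk.1, hk.2.1, hk.2.2]
    split_ifs with h3
    · rw [Nat.sub_add_cancel (by omega)]
    · rfl
  simp only [List.cons_append, List.nil_append, e] at h1
  split_ifs at h1 with h3 h4
  exact (en_r3 p q r h3 h4 h hb).2.2 a b hn h1

/-- the result of a move at the beginning of a word -/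
def Hd (w w' : Wd) : Prop := ∃ x y b : Wd, Ev x y ∧ w = x ++ b ∧ w' = y ++ b

theorem hd0 {w w' : Wd} (h : hd 0 w = some w') : Hd w w' := by
  match w, h with
  | ⟨k, i⟩ :: ⟨l, j⟩ :: r, h =>
    simp only [hd] at h
    split_ifs at h with h1
    have h1 := Nat.le_of_ble_eq_true h1
    obtain ⟨m, rfl⟩ := Nat.exists_eq_add_of_le h1
    rw [← Option.some.inj h]
    refine ⟨_, _, r, ev_mv (Mv.comm k l i m), rfl, ?_⟩
    simp only [List.cons_append, List.nil_append]
    rw [show i + k.nout + m - k.nout + k.nin = i + k.nin + m by omega]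

theorem hd1 {w w' : Wd} (h : hd 1 w = some w') : Hd w w' := by
  match w, h with
  | ⟨l, j⟩ :: ⟨k, i⟩ :: r, h =>
    simp only [hd] at h
    split_ifs at h with h1
    have h1 := Nat.le_of_ble_eq_true h1
    obtain ⟨m, rfl⟩ := Nat.exists_eq_add_of_le h1
    rw [← Option.some.inj h]
    refine ⟨_, _, r, ev_symm (ev_mv (Mv.comm k l i m)), rfl, ?_⟩
    simp only [List.cons_append, List.nil_append]
    rw [show i + k.nin + m - k.nin + k.nout = i + k.nout + m by omega]

theorem beq_eq {i j : ℕ} (h : Nat.beq i j = true) : i = j := Nat.eq_of_beq_eq_true h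

theorem hd2 {w w' : Wd} (h : hd 2 w = some w') : Hd w w' := by
  match w, h with
  | ⟨.cup, i⟩ :: ⟨.cap, j⟩ :: r, h =>
    simp only [hd] at h
    split_ifs at h with h1
    rw [← Option.some.inj h]
    rcases Bool.or_eq_true_iff.1 h1 with h1 | h1
    · have := beq_eq h1
      subst this
      exact ⟨_, [], r, ev_mv (Mv.zig i), rfl, rfl⟩
    · have := beq_eq h1
      subst this
      exact ⟨_, [], r, ev_mv (Mv.zag j), rfl, rfl⟩
  | ⟨.pos, i⟩ :: ⟨.neg, j⟩ :: r, h =>
    simp only [hd] at h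
    split_ifs at h with h1
    rw [← Option.some.inj h]
    have := beq_eq h1
    subst this
    exact ⟨_, [], r, ev_mv (Mv.r2a i), rfl, rfl⟩
  | ⟨.neg, i⟩ :: ⟨.pos, j⟩ :: r, h =>
    simp only [hd] at h
    split_ifs at h with h1
    rw [← Option.some.inj h]
    have := beq_eq h1
    subst this
    exact ⟨_, [], r, ev_mv (Mv.r2b i), rfl, rfl⟩

theorem hd3 {w w' : Wd} (h : hd 3 w = some w') : Hd w w' := by
  match w, h with
  | ⟨.pos, i⟩ :: ⟨.cap, j⟩ :: r, h =>
    simp only [hd] at h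
    split_ifs at h with h1
    rw [← Option.some.inj h]
    have := beq_eq h1
    subst this
    exact ⟨_, _, r, ev_mv (Mv.r1a i), rfl, rfl⟩
  | ⟨.neg, i⟩ :: ⟨.cap, j⟩ :: r, h =>
    simp only [hd] at h
    split_ifs at h with h1
    rw [← Option.some.inj h]
    have := beq_eq h1
    subst this
    exact ⟨_, _, r, ev_mv (Mv.r1b i), rfl, rfl⟩
  | ⟨.cup, i⟩ :: ⟨.pos, j⟩ :: r, h =>
    simp only [hd] at h
    split_ifs at h with h1
    rw [← Option.some.inj h]
    have := beq_eq h1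
    subst this
    exact ⟨_, _, r, ev_mv (Mv.r1c i), rfl, rfl⟩
  | ⟨.cup, i⟩ :: ⟨.neg, j⟩ :: r, h =>
    simp only [hd] at h
    split_ifs at h with h1
    rw [← Option.some.inj h]
    have := beq_eq h1
    subst this
    exact ⟨_, _, r, ev_mv (Mv.r1d i), rfl, rfl⟩

theorem hd4 {w w' : Wd} (h : hd 4 w = some w') : Hd w w' := by
  match w, h with
  | ⟨k1, i⟩ :: ⟨k2, j⟩ :: ⟨k3, l⟩ :: r, h =>
    simp only [hd] at h
    split_ifs at h with h1
    simp only [Bool.and_eq_true, Bool.or_eq_true] at h1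
    obtain ⟨a1, a2, a3, a4, a5, a6⟩ := h1
    obtain ⟨p, hp⟩ := isX_iff a1
    obtain ⟨q, hq⟩ := isX_iff a2
    obtain ⟨t, ht⟩ := isX_iff a3
    have := beq_eq a4
    subst this
    have hpq : ∀ {p q : Bool} {k k' : Kd}, (∀ i, (⟨k, i⟩ : Sl) = X p i) →
        (∀ i, (⟨k', i⟩ : Sl) = X q i) → kb k k' = true → p = q := by
      intro p q k k' h1 h2 h3
      have e := kb_sound h3
      subst e
      have h4 := (h1 0).symm.trans (h2 0)
      cases p <;> cases q <;> simp [X] at h4 ⊢
    rw [← Option.some.inj h, hp, hq, ht, hp, hq, ht]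
    refine ⟨_, _, r, ev_r3 p q t i j ?_ ?_, rfl, rfl⟩
    · rcases a5 with h | h
      · exact Or.inl (beq_eq h)
      · exact Or.inr (beq_eq h)
    · rcases a6 with h | h
      · exact Or.inl (hpq hp hq h)
      · exact Or.inr (hpq hq ht h)

theorem hd5 {w w' : Wd} (h : hd 5 w = some w') : Hd w w' := by
  match w, h with
  | ⟨.pos, i⟩ :: ⟨.cap, j⟩ :: r, h =>
    simp only [hd] at h
    split_ifs at h with h1 h2
    · rw [← Option.some.inj h]
      have := beq_eq h1
      subst this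
      exact ⟨_, _, r, ev_mv (Mv.sla j), rfl, rfl⟩
    · rw [← Option.some.inj h]
      have := beq_eq h2
      subst this
      exact ⟨_, _, r, ev_symm (ev_mv (Mv.slb i)), rfl, rfl⟩
  | ⟨.neg, i⟩ :: ⟨.cap, j⟩ :: r, h =>
    simp only [hd] at h
    split_ifs at h with h1 h2
    · rw [← Option.some.inj h]
      have := beq_eq h1
      subst this
      exact ⟨_, _, r, ev_mv (Mv.slb j), rfl, rfl⟩
    · rw [← Option.some.inj h]
      have := beq_eq h2
      subst this
      exact ⟨_, _, r, ev_symm (ev_mv (Mv.sla i)), rfl, rfl⟩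
  | ⟨.cup, i⟩ :: ⟨.pos, j⟩ :: r, h =>
    simp only [hd] at h
    split_ifs at h with h1
    rw [← Option.some.inj h]
    rcases Bool.or_eq_true_iff.1 h1 with h1 | h1
    · have := beq_eq h1
      subst this
      exact ⟨_, _, r, ev_mv (Mv.slc i), rfl, rfl⟩
    · have := beq_eq h1
      subst this
      exact ⟨_, _, r, ev_symm (ev_mv (Mv.sld j)), rfl, rfl⟩
  | ⟨.cup, i⟩ :: ⟨.neg, j⟩ :: r, h =>
    simp only [hd] at h
    split_ifs at h with h1
    rw [← Option.some.inj h]
    rcases Bool.or_eq_true_iff.1 h1 with h1 | h1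
    · have := beq_eq h1
      subst this
      exact ⟨_, _, r, ev_mv (Mv.sld i), rfl, rfl⟩
    · have := beq_eq h1
      subst this
      exact ⟨_, _, r, ev_symm (ev_mv (Mv.slc j)), rfl, rfl⟩

theorem hd_sound : ∀ {t : ℕ} {w w' : Wd}, hd t w = some w' → Hd w w'
  | 0, _, _, h => hd0 h
  | 1, _, _, h => hd1 h
  | 2, _, _, h => hd2 h
  | 3, _, _, h => hd3 h
  | 4, _, _, h => hd4 h
  | 5, _, _, h => hd5 h
  | t + 6, w, w', h => by simp [hd] at h

theorem nw_sound : ∀ {t i : ℕ} {w w' : Wd}, nw t i w = some w' → Hd w w' := by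
  intro t i w w' h
  unfold nw at h
  split at h
  · rw [← Option.some.inj h]
    exact ⟨[], _, w, ev_symm (ev_mv (Mv.zig i)), rfl, rfl⟩
  · rw [← Option.some.inj h]
    exact ⟨[], _, w, ev_symm (ev_mv (Mv.zag i)), rfl, rfl⟩
  · rw [← Option.some.inj h]
    exact ⟨[], _, w, ev_symm (ev_mv (Mv.r2a i)), rfl, rfl⟩
  · rw [← Option.some.inj h]
    exact ⟨[], _, w, ev_symm (ev_mv (Mv.r2b i)), rfl, rfl⟩
  · rw [← Option.some.inj h]
    exact ⟨_, _, _, ev_symm (ev_mv (Mv.r1a _)), rfl, rfl⟩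
  · rw [← Option.some.inj h]
    exact ⟨_, _, _, ev_symm (ev_mv (Mv.r1c _)), rfl, rfl⟩
  · rw [← Option.some.inj h]
    exact ⟨_, _, _, ev_symm (ev_mv (Mv.r1b _)), rfl, rfl⟩
  · rw [← Option.some.inj h]
    exact ⟨_, _, _, ev_symm (ev_mv (Mv.r1d _)), rfl, rfl⟩
  · simp at h

/-- a move somewhere in the word -/
def Lv (w w' : Wd) : Prop := ∃ a x y b : Wd, Ev x y ∧ w = a ++ x ++ b ∧ w' = a ++ y ++ b

theorem pt_sound {f : Wd → Option Wd} (hf : ∀ {w w' : Wd}, f w = some w' → Hd w w') :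
    ∀ {p : ℕ} {w w' : Wd}, pt f p w = some w' → Lv w w'
  | 0, w, w', h => by
    obtain ⟨x, y, b, h1, h2, h3⟩ := hf (show f w = some w' from h)
    exact ⟨[], x, y, b, h1, h2, h3⟩
  | p + 1, [], w', h => by simp [pt] at h
  | p + 1, s :: w, w', h => by
    rw [pt] at h
    cases hq : pt f p w with
    | none => rw [hq] at h; simp at h
    | some w1 =>
      rw [hq] at h
      obtain ⟨a, x, y, b, h1, h2, h3⟩ := pt_sound hf hq
      refine ⟨s :: a, x, y, b, h1, ?_, ?_⟩
      · rw [h2]; rfl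
      · rw [← Option.some.inj h, h3]; rfl

theorem tyb_sound : ∀ {w : Wd} {n : ℕ}, tyb w n = true → ty w n = some 1
  | [], n, h => by rw [ty_nil, beq_eq h]
  | s :: w, n, h => by
    rw [tyb, Bool.and_eq_true] at h
    rw [ty_cons, if_pos (Nat.le_of_ble_eq_true h.1)]
    exact tyb_sound h.2

theorem one_sound {s : Ins} {v w : Wd} (hv : ty v 1 = some 1) (h : one s v = some w) :
    ty w 1 = some 1 ∧ Iso v w := by
  have key : ∀ {u : Option Wd}, (∀ w', u = some w' → Lv v w') →
      (match u with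
        | some w' => if tyb w' 1 then some w' else none
        | none => none) = some w → ty w 1 = some 1 ∧ Iso v w := by
    intro u hu h
    cases u with
    | none => simp at h
    | some w' =>
      simp only at h
      split_ifs at h with h1
      have h2 := Option.some.inj h
      subst h2
      obtain ⟨a, x, y, b, h3, h4, h5⟩ := hu w' rfl
      have h6 := tyb_sound h1
      refine ⟨h6, ?_⟩
      rw [h4, h5]
      exact h3 a b (by rw [← h4]; exact hv) (by rw [← h5]; exact h6)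
  cases s with
  | mv p t => exact key (fun w' hw => pt_sound hd_sound hw) h
  | nv p t i => exact key (fun w' hw => pt_sound nw_sound hw) h

theorem chk_sound : ∀ {L : List Ins} {v w : Wd}, ty v 1 = some 1 → chk L v w = true →
    ty w 1 = some 1 ∧ Iso v w
  | [], v, w, hv, h => by
    rw [← wb_sound h]
    exact ⟨hv, Relation.ReflTransGen.refl⟩
  | s :: L, v, w, hv, h => by
    rw [chk] at h
    cases hs : one s v with
    | none => rw [hs] at h; simp at h
    | some v' =>
      rw [hs] at h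
      obtain ⟨h1, h2⟩ := one_sound hv hs
      obtain ⟨h3, h4⟩ := chk_sound h1 h
      exact ⟨h3, h2.trans h4⟩

/-- the checker -/
theorem iso_of_chk (L : List Ins) {v w : Wd} (hv : tyb v 1 = true) (h : chk L v w = true) :
    Iso v w := (chk_sound (tyb_sound hv) h).2

end Pool.Agent.H69.RM
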