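import Pool.Agent.H69.RM.Chk

/-!
# A ribbon disk with nine ribbon singularities

`sN` is the disk arc x I over the alternating diagram with 10 crossings, with one end pulled back; its boundary is
isotopic to the connected sum of two copies of `kM`, the closure of the 3-braid `(σ₁ σ₂⁻¹)⁵` cut at a middle edge
(the knot 10_123).
-/

set_option autoImplicit false

namespace Pool.Agent.H69.RM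

open Pool.Agent.H86.RB

/-- the knot 10_123 -/
def kM : Wd := [⟨.cup, 0⟩, ⟨.cup, 3⟩, ⟨.pos, 1⟩, ⟨.neg, 2⟩, ⟨.pos, 1⟩, ⟨.neg, 2⟩, ⟨.pos, 1⟩, ⟨.neg, 2⟩,
    ⟨.pos, 1⟩, ⟨.neg, 2⟩, ⟨.pos, 1⟩, ⟨.neg, 2⟩, ⟨.cap, 3⟩, ⟨.cap, 0⟩]

/-- the ribbon disk with nine ribbon singularities -/
def sN : List Bd := [.split 0, .birth 0, .split 1, .birth 3, .split 4, .passR false 1, .passL false 2, .passR
    false 1, .passL false 2, .passR false 1, .passL false 2, .passR false 1, .passL false 2,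
    .passR false 1, .death 3, .merge 3, .death 2, .merge 1, .death 0]

/-- the isotopy -/
def pN : List Ins :=
  [.nv 3 3 1, .mv 2 5, .nv 2 3 2, .mv 1 5, .mv 3 1, .mv 2 1, .mv 1 1, .mv 6 0, .mv 5 0, .mv 4 0,
    .mv 3 0, .mv 7 0, .mv 6 0, .mv 5 0, .mv 4 0, .nv 5 3 6, .mv 4 1, .mv 3 5, .nv 6 3 5, .mv 5 1,
    .mv 4 1, .mv 3 5, .nv 7 3 4, .mv 6 1, .mv 5 1, .mv 4 1, .mv 3 5, .nv 8 3 9, .mv 7 5, .mv 6 0,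
    .mv 5 0, .mv 4 0, .mv 3 0, .mv 12 1, .mv 9 1, .mv 10 1, .mv 11 1, .mv 8 1, .mv 3 1, .mv 8 0,
    .mv 11 0, .mv 10 0, .mv 9 0, .mv 12 0, .mv 16 0, .mv 15 0, .mv 17 0, .mv 18 0, .mv 17 0, .mv
    16 0, .mv 19 0, .mv 14 2, .mv 13 0, .mv 14 4, .mv 16 0, .mv 11 4, .mv 10 0, .mv 9 1, .mv 8 1,
    .mv 6 4, .mv 5 0, .mv 13 1, .mv 14 1, .mv 10 1, .mv 11 1, .mv 12 1, .mv 13 1, .mv 11 1, .mv 9
    1, .mv 10 1, .mv 9 1, .mv 8 1, .mv 7 1, .mv 6 1, .mv 5 1, .mv 10 0, .mv 13 0, .mv 12 0, .mv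
    11 0, .mv 14 0, .mv 18 0, .mv 17 0, .mv 16 0, .mv 15 0, .mv 19 0, .mv 18 0, .mv 17 0, .mv 16
    0, .mv 20 0, .mv 19 0, .mv 21 0, .mv 20 0, .mv 14 2, .mv 13 0, .mv 12 0, .mv 14 1, .mv 15 4,
    .mv 17 0, .mv 13 4, .mv 15 0, .mv 16 0, .mv 11 1, .mv 9 4, .mv 8 0, .mv 7 0, .mv 16 1, .mv 12
    1, .mv 13 1, .mv 14 1, .mv 15 1, .mv 11 1, .mv 12 1, .mv 10 1, .mv 9 1, .mv 8 1, .mv 7 1, .mv
    12 0, .mv 15 0, .mv 14 0, .mv 13 0, .mv 16 0, .mv 20 0, .mv 19 0, .mv 21 0, .mv 22 0, .mv 21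
    0, .mv 20 0, .mv 23 0, .mv 18 2, .mv 17 0, .mv 18 4, .mv 20 0, .mv 15 4, .mv 14 0, .mv 13 1,
    .mv 12 1, .mv 10 4, .mv 9 0, .mv 17 1, .mv 18 1, .mv 14 1, .mv 15 1, .mv 16 1, .mv 17 1, .mv
    15 1, .mv 13 1, .mv 14 1, .mv 13 1, .mv 12 1, .mv 11 1, .mv 10 1, .mv 9 1, .mv 14 0, .mv 17
    0, .mv 16 0, .mv 15 0, .mv 18 0, .mv 22 0, .mv 21 0, .mv 20 0, .mv 19 0, .mv 23 0, .mv 22 0,
    .mv 21 0, .mv 20 0, .mv 24 0, .mv 23 0, .mv 25 0, .mv 24 0, .mv 18 2, .mv 17 0, .mv 16 0, .mv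
    18 1, .mv 19 4, .mv 21 0, .mv 17 4, .mv 19 0, .mv 20 0, .mv 15 1, .mv 13 4, .mv 12 0, .mv 11
    0, .mv 20 1, .mv 16 1, .mv 17 1, .mv 18 1, .mv 19 1, .mv 15 1, .mv 16 1, .mv 14 1, .mv 13 1,
    .mv 12 1, .mv 11 1, .mv 16 0, .mv 19 0, .mv 18 0, .mv 17 0, .mv 20 0, .mv 24 0, .mv 23 0, .mv
    25 0, .mv 26 0, .mv 25 0, .mv 24 0, .mv 27 0, .mv 22 2, .mv 21 0, .mv 22 4, .mv 24 0, .mv 19
    4, .mv 18 0, .mv 17 1, .mv 16 1, .mv 14 4, .mv 13 0, .mv 21 1, .mv 22 1, .mv 18 1, .mv 19 1,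
    .mv 20 1, .mv 21 1, .mv 19 1, .mv 17 1, .mv 18 1, .mv 17 1, .mv 16 1, .mv 15 1, .mv 14 1, .mv
    13 1, .mv 18 0, .mv 21 0, .mv 20 0, .mv 19 0, .mv 22 0, .mv 26 0, .mv 25 0, .mv 24 0, .mv 23
    0, .mv 27 0, .mv 26 0, .mv 25 0, .mv 24 0, .mv 28 0, .mv 27 0, .mv 29 0, .mv 28 0, .mv 22 2,
    .mv 21 0, .mv 20 0, .mv 22 1, .mv 23 4, .mv 25 0, .mv 21 4, .mv 23 0, .mv 24 0, .mv 19 1, .mv
    17 4, .mv 16 0, .mv 15 0, .mv 24 1, .mv 20 1, .mv 21 1, .mv 22 1, .mv 23 1, .mv 19 1, .mv 20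
    1, .mv 18 1, .mv 17 1, .mv 16 1, .mv 15 1, .mv 20 0, .mv 23 0, .mv 22 0, .mv 21 0, .mv 24 0,
    .mv 28 0, .mv 27 0, .mv 29 0, .mv 30 0, .mv 29 0, .mv 28 0, .mv 31 0, .mv 26 2, .mv 25 0, .mv
    26 4, .mv 28 0, .mv 23 4, .mv 22 0, .mv 21 1, .mv 20 1, .mv 18 4, .mv 17 0, .mv 25 1, .mv 26
    1, .mv 22 1, .mv 23 1, .mv 24 1, .mv 25 1, .mv 23 1, .mv 21 1, .mv 22 1, .mv 21 1, .mv 20 1,
    .mv 19 1, .mv 18 1, .mv 17 1, .mv 22 0, .mv 25 0, .mv 24 0, .mv 23 0, .mv 26 0, .mv 30 0, .mv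
    29 0, .mv 28 0, .mv 27 0, .mv 31 0, .mv 30 0, .mv 29 0, .mv 28 0, .mv 32 0, .mv 31 0, .mv 33
    0, .mv 32 0, .mv 26 2, .mv 25 0, .mv 24 0, .mv 26 1, .mv 27 4, .mv 29 0, .mv 25 4, .mv 27 0,
    .mv 28 0, .mv 23 1, .mv 21 4, .mv 20 0, .mv 19 0, .mv 28 1, .mv 24 1, .mv 25 1, .mv 26 1, .mv
    27 1, .mv 23 1, .mv 24 1, .mv 22 1, .mv 21 1, .mv 20 1, .mv 19 1, .mv 24 0, .mv 27 0, .mv 26
    0, .mv 25 0, .mv 28 0, .mv 32 0, .mv 31 0, .mv 33 0, .mv 34 0, .mv 33 0, .mv 32 0, .mv 35 0,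
    .mv 30 2, .mv 29 0, .mv 30 4, .mv 32 0, .mv 27 4, .mv 26 0, .mv 25 1, .mv 24 1, .mv 22 4, .mv
    21 0, .mv 29 1, .mv 30 1, .mv 26 1, .mv 27 1, .mv 28 1, .mv 29 1, .mv 27 1, .mv 25 1, .mv 26
    1, .mv 25 1, .mv 24 1, .mv 23 1, .mv 22 1, .mv 21 1, .mv 26 0, .mv 29 0, .mv 28 0, .mv 27 0,
    .mv 30 0, .mv 34 0, .mv 33 0, .mv 32 0, .mv 31 0, .mv 35 0, .mv 34 0, .mv 33 0, .mv 32 0, .mv
    36 0, .mv 35 0, .mv 37 5, .mv 38 0, .mv 36 2, .mv 35 1, .mv 34 5, .mv 33 2, .mv 32 1, .mv 31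
    1, .mv 30 1, .mv 29 5, .mv 28 2, .mv 27 1, .mv 26 1, .mv 25 1, .mv 24 5, .mv 23 2, .mv 26 1,
    .mv 25 1, .mv 27 1, .mv 26 5, .mv 24 4, .mv 26 0, .mv 28 5, .mv 27 2, .mv 27 1, .mv 26 1, .mv
    25 1, .mv 24 5, .mv 26 5, .mv 27 0, .mv 25 0, .mv 26 0, .mv 24 0, .mv 25 0, .mv 23 0, .mv 24
    0, .mv 28 1, .mv 25 1, .mv 26 1, .mv 27 1, .mv 24 1, .mv 25 1, .mv 26 1, .mv 23 1, .mv 24 1,
    .mv 25 1, .mv 1 0, .mv 0 0, .mv 2 0, .mv 1 0, .mv 3 0, .mv 2 0, .mv 1 0, .mv 0 0, .mv 5 0,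
    .mv 4 0, .mv 3 0, .mv 2 0, .mv 7 0, .mv 6 0, .mv 5 0, .mv 4 0, .mv 3 0, .mv 9 0, .mv 8 0, .mv
    7 0, .mv 6 0, .mv 5 0, .mv 4 0, .mv 11 0, .mv 10 0, .mv 9 0, .mv 8 0, .mv 7 0, .mv 6 0, .mv 5
    0, .mv 13 0, .mv 12 0, .mv 11 0, .mv 10 0, .mv 9 0, .mv 8 0, .mv 7 0, .mv 6 0, .mv 15 0, .mv
    14 0, .mv 13 0, .mv 12 0, .mv 11 0, .mv 10 0, .mv 9 0, .mv 8 0, .mv 7 0, .mv 17 0, .mv 16 0,
    .mv 15 0, .mv 14 0, .mv 13 0, .mv 12 0, .mv 11 0, .mv 10 0, .mv 9 0, .mv 8 0, .mv 19 0, .mv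
    18 0, .mv 17 0, .mv 16 0, .mv 15 0, .mv 14 0, .mv 13 0, .mv 12 0, .mv 11 0, .mv 10 0, .mv 9
    0, .mv 21 0, .mv 20 0, .mv 19 0, .mv 18 0, .mv 17 0, .mv 16 0, .mv 15 0, .mv 14 0, .mv 13 0,
    .mv 12 0, .mv 11 0, .mv 10 0, .mv 25 0, .mv 24 0, .mv 23 0, .mv 22 0, .mv 21 0, .mv 20 0, .mv
    19 0, .mv 18 0, .mv 17 0, .mv 16 0, .mv 15 0, .mv 14 0, .mv 13 0, .mv 12 0, .mv 11 0, .mv 26
    0, .mv 25 0, .mv 24 0, .mv 23 0, .mv 22 0, .mv 21 0, .mv 20 0, .mv 19 0, .mv 18 0, .mv 17 0,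
    .mv 16 0, .mv 15 0, .mv 14 0, .mv 13 0, .mv 12 0, .mv 27 0, .mv 26 0, .mv 25 0, .mv 24 0, .mv
    23 0, .mv 22 0, .mv 21 0, .mv 20 0, .mv 19 0, .mv 18 0, .mv 17 0, .mv 16 0, .mv 15 0, .mv 14
    0, .mv 13 0, .mv 13 0, .mv 14 0, .mv 15 0, .mv 13 1, .mv 14 1, .mv 15 1, .mv 14 1, .mv 13 1,
    .mv 0 1, .nv 16 1 1, .mv 17 0, .mv 18 0, .mv 19 0, .mv 20 0, .mv 21 0, .mv 22 0, .mv 23 0,
    .mv 24 0, .mv 25 0, .mv 26 0, .mv 27 0, .mv 28 0, .mv 29 0, .mv 16 0, .mv 15 0, .mv 14 0, .nv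
    15 1 0, .mv 16 0, .mv 17 0, .mv 18 0, .mv 19 0, .mv 20 0, .mv 21 0, .mv 22 0, .mv 23 0, .mv
    24 0, .mv 25 0, .mv 26 0, .mv 27 0, .mv 28 0, .mv 29 0, .mv 30 0, .mv 18 0, .mv 17 5, .mv 16
    0, .mv 17 5, .mv 18 0, .mv 19 0, .mv 20 0, .mv 21 0, .mv 22 0, .mv 23 0, .mv 24 0, .mv 25 0,
    .mv 26 0, .mv 27 0, .mv 28 0, .mv 29 0, .mv 18 0, .mv 17 0, .mv 16 5, .mv 15 0, .mv 16 5, .mv
    17 0, .mv 18 0, .mv 19 0, .mv 20 0, .mv 21 0, .mv 22 0, .mv 23 0, .mv 24 0, .mv 25 0, .mv 26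
    0, .mv 27 0, .mv 28 0, .mv 18 0, .mv 17 5, .mv 16 0, .mv 17 5, .mv 18 0, .mv 19 0, .mv 20 0,
    .mv 21 0, .mv 22 0, .mv 23 0, .mv 24 0, .mv 25 0, .mv 26 0, .mv 27 0, .mv 18 0, .mv 17 0, .mv
    16 5, .mv 15 0, .mv 16 5, .mv 17 0, .mv 18 0, .mv 19 0, .mv 20 0, .mv 21 0, .mv 22 0, .mv 23
    0, .mv 24 0, .mv 25 0, .mv 26 0, .mv 18 0, .mv 17 5, .mv 16 0, .mv 17 5, .mv 18 0, .mv 19 0,
    .mv 20 0, .mv 21 0, .mv 22 0, .mv 23 0, .mv 24 0, .mv 25 0, .mv 18 0, .mv 17 0, .mv 16 5, .mv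
    15 0, .mv 16 5, .mv 17 0, .mv 18 0, .mv 19 0, .mv 20 0, .mv 21 0, .mv 22 0, .mv 23 0, .mv 24
    0, .mv 18 0, .mv 17 5, .mv 16 0, .mv 17 5, .mv 18 0, .mv 19 0, .mv 20 0, .mv 21 0, .mv 22 0,
    .mv 23 0, .mv 18 0, .mv 17 0, .mv 16 5, .mv 15 0, .mv 16 5, .mv 17 0, .mv 18 0, .mv 19 0, .mv
    20 0, .mv 21 0, .mv 22 0, .mv 18 0, .mv 17 5, .mv 16 0, .mv 17 5, .mv 18 0, .mv 19 0, .mv 20
    0, .mv 21 0, .mv 18 0, .mv 17 0, .mv 16 5, .mv 15 0, .mv 16 5, .mv 17 0, .mv 18 0, .mv 19 0,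
    .mv 20 0, .mv 18 0, .mv 17 0, .mv 16 0, .mv 16 0, .mv 15 0, .mv 14 0, .mv 17 0, .mv 16 0, .mv
    15 0, .mv 18 0, .mv 17 0, .mv 16 0, .mv 18 2, .mv 17 0, .mv 16 2, .mv 28 0, .mv 27 0, .mv 26
    0, .mv 25 0, .mv 24 0, .mv 23 0, .mv 22 0, .mv 21 0, .mv 20 0, .mv 19 0, .mv 18 0, .mv 17 0,
    .mv 16 0, .mv 15 0, .mv 14 2, .mv 14 1, .mv 26 0]

theorem iso_nine : Iso (bdw sN) (kM ++ kM) :=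
  iso_of_chk pN (by decide +kernel) (by decide +kernel)

end Pool.Agent.H69.RM
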